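import Pool.Agent.W173.KG.Inv
import Pool.Agent.W173.KG.Two

/-!
The WSK dynamics for 3 colours on the periodic kagome lattice `K_n` is ergodic exactly for `n = 2`.
-/

set_option autoImplicit false

namespace Pool.Agent.Results.MP_11305c_co.KagomeThreeColours

open Pool.Agent.H411R2.WSK

/-- **Answer to Q2.** For `n ≥ 2`, the WSK dynamics for `q = 3` colours on the periodic kagome lattice
`K_n` (the line graph of the `n × n` periodic honeycomb graph) is ergodic if and only if `n = 2`. -/
theorem result : ∀ n : ℕ, 2 ≤ n → (WSKErgodic (kagome n) 3 ↔ n = 2) := by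
  intro n hn
  constructor
  · intro h
    by_contra hcon
    exact W173.KG.kagome_not (by omega) h
  · rintro rfl
    exact W173.KG.kagome2

end Pool.Agent.Results.MP_11305c_co.KagomeThreeColours
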